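import Pool.Agent.Helper70.BN.St3

set_option autoImplicit false

namespace Pool.Agent.Helper10.BN

open Pool.Agent.Helper70.BN Pool.Agent.Helper75.MX

section dihedral

variable {W : Type} [Group W] {l : ℕ} {i j : Fin l} {f : Fin l → W}

lemma ndih_inv {s t : W} (hs : s * s = 1) (ht : t * t = 1) : (s * t)⁻¹ = t * s := by
  rw [mul_inv_rev, inv_eq_of_mul_eq_one_left hs, inv_eq_of_mul_eq_one_left ht]

lemma ndih_conj {s t : W} (hs : s * s = 1) (ht : t * t = 1) (a : ℤ) :
    s * (s * t) ^ a = (s * t) ^ (-a) * s := by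
  have h1 : SemiconjBy s (s * t) (s * t)⁻¹ := by
    rw [ndih_inv hs ht]
    change s * (s * t) = t * s * s
    rw [← mul_assoc, hs, one_mul, mul_assoc, hs, mul_one]
  have h2 := h1.zpow_right a
  rw [inv_zpow, ← zpow_neg] at h2
  exact h2

lemma ndih_t {s t : W} (hs : s * s = 1) (ht : t * t = 1) : t = (s * t) ^ (-1 : ℤ) * s := by
  rw [zpow_neg_one, ndih_inv hs ht, mul_assoc, hs, mul_one]

/-- powers of an involution -/
lemma ndih_pow {s : W} (hs : s * s = 1) (n : ℕ) : s ^ n = s ^ (n % 2) := by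
  conv_lhs => rw [← Nat.div_add_mod n 2]
  rw [pow_add, pow_mul, pow_two, hs, one_pow, one_mul]

/-- the value of a word -/
lemma ndih_word (hij : ∀ k, k = i ∨ k = j) (hs : f i * f i = 1) (ht : f j * f j = 1)
    (v : List (Fin l)) : ∃ a : ℤ, (v.map f).prod = (f i * f j) ^ a * f i ^ v.length ∧
      -(v.length : ℤ) ≤ 2 * a + (v.length : ℤ) % 2 ∧ 2 * a + (v.length : ℤ) % 2 ≤ v.length := by
  induction v with
  | nil => exact ⟨0, by simp, by simp, by simp⟩
  | cons k v ih =>
    obtain ⟨a, h1, h2, h3⟩ := ih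
    have hl : ((k :: v).length : ℤ) = (v.length : ℤ) + 1 := by
      rw [List.length_cons]
      push_cast
      ring
    rcases hij k with hk | hk
    · refine ⟨-a, ?_, ?_, ?_⟩
      · rw [List.map_cons, List.prod_cons, h1, hk, ← mul_assoc, ndih_conj hs ht, mul_assoc,
          List.length_cons, pow_succ']
      · rw [hl]
        omega
      · rw [hl]
        omega
    · refine ⟨-1 - a, ?_, ?_, ?_⟩
      · have h4 : f k = (f i * f j) ^ (-1 : ℤ) * f i := by
          rw [hk]
          exact ndih_t hs ht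
        rw [List.map_cons, List.prod_cons, h1, h4, List.length_cons, pow_succ', sub_eq_add_neg,
          zpow_add, mul_assoc, ← mul_assoc (f i) ((f i * f j) ^ a), ndih_conj hs ht, mul_assoc,
          mul_assoc]
      · rw [hl]
        omega
      · rw [hl]
        omega

/-- the value of an alternating word -/
lemma ndih_alt (i j : Fin l) (m : ℕ) :
    ((alt i j m).map f).prod = (f i * f j) ^ (m / 2) * f i ^ (m % 2) ∧
    ((alt i j (m + 1)).map f).prod = (f i * f j) ^ ((m + 1) / 2) * f i ^ ((m + 1) % 2) := by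
  induction m with
  | zero =>
    refine ⟨?_, ?_⟩
    · simp [alt]
    · simp [alt]
  | succ m ih =>
    refine ⟨ih.2, ?_⟩
    have h1 : alt i j (m + 1 + 1) = i :: j :: alt i j m := rfl
    have h2 : (m + 1 + 1) / 2 = m / 2 + 1 := by omega
    have h3 : (m + 1 + 1) % 2 = m % 2 := by omega
    rw [h1, h2, h3, List.map_cons, List.map_cons, List.prod_cons, List.prod_cons, ih.1,
      ← mul_assoc (f i), ← mul_assoc (f i * f j), ← pow_succ']

/-- the braid relation -/
lemma ndih_braid (hs : f i * f i = 1) (ht : f j * f j = 1) (m : ℕ) (hm : (f i * f j) ^ m = 1) :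
    ((alt i j m).map f).prod = ((alt j i m).map f).prod := by
  rw [(ndih_alt i j m).1, (ndih_alt j i m).1, ← ndih_inv hs ht]
  have h1 : m = 2 * (m / 2) + m % 2 := (Nat.div_add_mod m 2).symm
  rcases Nat.mod_two_eq_zero_or_one m with h | h
  · rw [h, pow_zero, pow_zero, mul_one, mul_one, inv_pow, eq_inv_iff_mul_eq_one, ← pow_add]
    have h2 : m / 2 + m / 2 = m := by omega
    rw [h2, hm]
  · rw [h, pow_one, pow_one]
    have h2 : m / 2 + (m / 2 + 1) = m := by omega
    have h3 : (f i * f j) ^ (m / 2) * (f i * f j) ^ (m / 2 + 1) = 1 := by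
      rw [← pow_add, h2, hm]
    have h4 : (f i * f j) ^ (m / 2) = ((f i * f j)⁻¹) ^ (m / 2 + 1) := by
      rw [inv_pow, eq_inv_iff_mul_eq_one]
      exact h3
    conv_lhs => rw [h4]
    rw [pow_succ, mul_assoc, ndih_inv hs ht, mul_assoc (f j), hs, mul_one]

/-- alternating words of length `m` have minimal length -/
lemma ndih_min (hij : ∀ k, k = i ∨ k = j) (hs : f i * f i = 1) (ht : f j * f j = 1)
    (hs1 : f i ≠ 1) (ht1 : f j ≠ 1) (m : ℕ) (hm : m = orderOf (f i * f j)) (hm2 : 2 ≤ m)
    (v : List (Fin l)) (hv : (v.map f).prod = ((alt i j m).map f).prod) : m ≤ v.length := by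
  by_contra hcon
  push Not at hcon
  obtain ⟨a, h1, h2, h3⟩ := ndih_word hij hs ht v
  rw [h1, (ndih_alt i j m).1, ndih_pow hs v.length] at hv
  set z := f i * f j with hz
  have hcm : (f i) * z = z⁻¹ * f i := by
    have := ndih_conj hs ht 1
    rw [zpow_one, zpow_neg_one] at this
    exact this
  have key : ∀ c : ℤ, f i ≠ z ^ c := by
    intro c hc
    have h4 : f i * z = z * f i := by
      rw [hc]
      exact (Commute.refl z).zpow_left c
    have h5 : z⁻¹ = z := by
      have h6 : z⁻¹ * f i = z * f i := by rw [← hcm, h4]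
      exact mul_right_cancel h6
    have h7 : z ^ (2 : ℤ) = 1 := by
      rw [zpow_two]
      nth_rewrite 1 [← h5]
      exact inv_mul_cancel z
    rcases Int.even_or_odd' c with ⟨d, hd | hd⟩
    · rw [hd, zpow_mul, h7, one_zpow] at hc
      exact hs1 hc
    · rw [hd, zpow_add, zpow_mul, h7, one_zpow, one_mul, zpow_one] at hc
      have h8 : f i * 1 = f i * f j := by rw [mul_one, ← hz]; exact hc
      exact ht1 (mul_left_cancel h8).symm
  have hz1 : z ^ (m / 2) = z ^ (((m / 2 : ℕ)) : ℤ) := (zpow_natCast z (m / 2)).symm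
  rw [hz1] at hv
  rcases Nat.mod_two_eq_zero_or_one v.length with hp | hp <;>
    rcases Nat.mod_two_eq_zero_or_one m with hq | hq
  · rw [hp, hq] at hv
    have h4 : z ^ (a - ((m / 2 : ℕ) : ℤ)) = 1 := by
      rw [zpow_sub, mul_right_cancel hv, mul_inv_cancel]
    have h5 : ((orderOf z : ℕ) : ℤ) ∣ a - ((m / 2 : ℕ) : ℤ) := orderOf_dvd_iff_zpow_eq_one.2 h4
    rw [← hm] at h5
    have h6 : a - ((m / 2 : ℕ) : ℤ) = 0 := by
      refine Int.eq_zero_of_abs_lt_dvd h5 (abs_lt.2 ⟨?_, ?_⟩) <;> omega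
    omega
  · rw [hp, hq, pow_zero, mul_one, pow_one] at hv
    refine key (a - ((m / 2 : ℕ) : ℤ)) ?_
    rw [sub_eq_neg_add, zpow_add, hv, ← mul_assoc, ← zpow_add, neg_add_cancel, zpow_zero, one_mul]
  · rw [hp, hq, pow_zero, mul_one, pow_one] at hv
    refine key (((m / 2 : ℕ) : ℤ) - a) ?_
    rw [sub_eq_neg_add, zpow_add, ← hv, ← mul_assoc, ← zpow_add, neg_add_cancel, zpow_zero, one_mul]
  · rw [hp, hq] at hv
    have h4 : z ^ (a - ((m / 2 : ℕ) : ℤ)) = 1 := by
      rw [zpow_sub, mul_right_cancel hv, mul_inv_cancel]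
    have h5 : ((orderOf z : ℕ) : ℤ) ∣ a - ((m / 2 : ℕ) : ℤ) := orderOf_dvd_iff_zpow_eq_one.2 h4
    rw [← hm] at h5
    have h6 : a - ((m / 2 : ℕ) : ℤ) = 0 := by
      refine Int.eq_zero_of_abs_lt_dvd h5 (abs_lt.2 ⟨?_, ?_⟩) <;> omega
    omega

end dihedral

/-- module NDIH -/
theorem hNDIH : StNDIH := by
  intro Q _ _ l B N n q hBN hnB i j hij hk hnn
  have hnorm : (B.subgroupOf N).Normal := by
    constructor
    intro t ht g
    rw [Subgroup.mem_subgroupOf] at ht ⊢
    exact hBN.norm g.1 g.2 t.1 ht t.2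
  let g : Fin l → N := fun k => ⟨n k, hBN.mem k⟩
  let f : Fin l → N ⧸ B.subgroupOf N := fun k => QuotientGroup.mk' (B.subgroupOf N) (g k)
  have hf : ∀ u : List (Fin l), (u.map f).prod =
      QuotientGroup.mk' (B.subgroupOf N) ((u.map g).prod) := by
    intro u
    rw [map_list_prod, List.map_map]
    rfl
  have hg : ∀ u : List (Fin l), (((u.map g).prod : N) : Q) = nw n u := by
    intro u
    have h : N.subtype ((u.map g).prod) = ((u.map g).map N.subtype).prod := map_list_prod _ _
    rw [List.map_map] at h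
    exact h
  have heq : ∀ u v : List (Fin l), (nw n v)⁻¹ * nw n u ∈ B ↔ (v.map f).prod = (u.map f).prod := by
    intro u v
    rw [hf, hf]
    change _ ↔ ((((v.map g).prod : N) : N ⧸ B.subgroupOf N)) = (((u.map g).prod : N))
    rw [QuotientGroup.eq, Subgroup.mem_subgroupOf, Subgroup.coe_mul, Subgroup.coe_inv, hg, hg]
  have hone : ∀ x : N, QuotientGroup.mk' (B.subgroupOf N) x = 1 ↔ (x : Q) ∈ B := by
    intro x
    rw [← MonoidHom.mem_ker, QuotientGroup.ker_mk', Subgroup.mem_subgroupOf]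
  have hsq : ∀ k, f k * f k = 1 := by
    intro k
    change QuotientGroup.mk' (B.subgroupOf N) (g k) * QuotientGroup.mk' (B.subgroupOf N) (g k) = 1
    rw [← map_mul, hone]
    exact hBN.sq k
  have hne : ∀ k, f k ≠ 1 := by
    intro k h
    exact hnB k ((hone (g k)).1 h)
  have hz : f i * f j ≠ 1 := by
    intro h
    refine hnn ((hone (g i * g j)).1 ?_)
    rw [map_mul]
    exact h
  have hz' : f j * f i = (f i * f j)⁻¹ := (ndih_inv (hsq i) (hsq j)).symm
  have hpos : 0 < orderOf (f i * f j) := orderOf_pos _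
  have hne1 : orderOf (f i * f j) ≠ 1 := fun h => hz (orderOf_eq_one_iff.1 h)
  have hm2 : 2 ≤ orderOf (f i * f j) := by omega
  have hk' : ∀ k, k = j ∨ k = i := fun k => (hk k).symm
  refine ⟨orderOf (f i * f j), hm2, ?_, ?_, ?_⟩
  · intro v hv
    have hv' := (heq _ _).1 hv
    have hlen : ∀ (a b : Fin l) (m : ℕ), (alt a b m).length = m := by
      intro a b m
      induction m generalizing a b with
      | zero => rfl
      | succ m ih =>
        change (alt b a m).length + 1 = m + 1
        rw [ih]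
    rw [hlen]
    exact ndih_min hk (hsq i) (hsq j) (hne i) (hne j) _ rfl hm2 v hv'
  · intro v hv
    have hv' := (heq _ _).1 hv
    have hlen : ∀ (a b : Fin l) (m : ℕ), (alt a b m).length = m := by
      intro a b m
      induction m generalizing a b with
      | zero => rfl
      | succ m ih =>
        change (alt b a m).length + 1 = m + 1
        rw [ih]
    rw [hlen]
    refine ndih_min hk' (hsq j) (hsq i) (hne j) (hne i) _ ?_ hm2 v hv'
    rw [hz', orderOf_inv]
  · rw [heq]
    exact ndih_braid (hsq i) (hsq j) _ (pow_orderOf_eq_one _)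

end Pool.Agent.Helper10.BN
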